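import Pool.Agent.H69.LQ.Lib

/-!
# LQ, row OU: the inequality in the outer region
-/

set_option autoImplicit false

open MeasureTheory Metric Set
open scoped ENNReal
open Pool.Agent.H85.LK (E adm lam Ann)
open Pool.Agent.H69.LQ

namespace Pool.Agent.H74.LQ
namespace OU

variable {N : ℕ}

/-- the integrals of the energies are bounded measurable functions -/
theorem BM_energy {u : E N → ℝ} (h1 : Continuous (fun q : ℝ × Sp N => rs u q.1 q.2))
    (h2 : Continuous (fun q : ℝ × Sp N => dr u q.1 q.2)) (A B a b : ℝ) (ha : 1 / 2 ≤ a)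
    (hab : a ≤ b) :
    BM (fun θ : Sp N => ∫ r in a..b, r ^ (N - 1) *
      (dr u r θ ^ 2 + (A / r ^ 2 + B) * rs u r θ ^ 2)) := by
  have hc : Continuous (fun q : ℝ × Sp N => q.1 ^ (N - 1) *
      (dr u q.1 q.2 ^ 2 + (A / (max q.1 (1 / 2)) ^ 2 + B) * rs u q.1 q.2 ^ 2)) := by
    have h3 : Continuous (fun q : ℝ × Sp N => A / (max q.1 (1 / 2)) ^ 2) := by
      refine continuous_const.div ((continuous_fst.max continuous_const).pow 2) fun q => ?_
      have : (0 : ℝ) < max q.1 (1 / 2) := lt_of_lt_of_le (by norm_num) (le_max_right _ _)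
      positivity
    exact (continuous_fst.pow _).mul ((h2.pow 2).add ((h3.add continuous_const).mul (h1.pow 2)))
  have h4 := BM_int hc (R := fun _ => b) measurable_const a b (fun _ => ⟨hab, le_rfl⟩)
  have h5 : (fun θ : Sp N => ∫ r in a..b, r ^ (N - 1) *
      (dr u r θ ^ 2 + (A / r ^ 2 + B) * rs u r θ ^ 2)) =
      fun θ : Sp N => ∫ r in a..b, (fun q : ℝ × Sp N => q.1 ^ (N - 1) *
      (dr u q.1 q.2 ^ 2 + (A / (max q.1 (1 / 2)) ^ 2 + B) * rs u q.1 q.2 ^ 2)) (r, θ) := by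
    funext θ
    apply intervalIntegral.integral_congr
    intro r hr
    rw [uIcc_of_le hab] at hr
    have h6 : max r (1 / 2) = r := max_eq_left (ha.trans hr.1)
    simp only [h6]
  rw [h5]
  exact h4

theorem inner_sq_le (T : E N) (θ : Sp N) : inner ℝ T (θ : E N) ^ 2 ≤ ‖T‖ ^ 2 := by
  have h1 := abs_real_inner_le_norm T (θ : E N)
  rw [norm_sp, mul_one] at h1
  exact sq_le_sq' (by linarith [neg_abs_le (inner ℝ T (θ : E N))]) ((le_abs_self _).trans h1)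

end OU

open OU in
theorem pf_OU (_hMP : T_MP) (_hMC : T_MC) (_hMO : T_MO) (hPH : T_PH) (hP1 : T_P1) (hRA : T_RA)
    (hME : T_ME) (hO2 : T_O2) (hCO : T_CO) : T_OU := by
  intro N L hN hL
  obtain ⟨C₁, c₁, δ₁, hC₁, hc₁, hδ₁, hδ₁', hRA⟩ := hRA N L hN hL
  obtain ⟨C₂, δ₂, hC₂, hδ₂, hδ₂', hME⟩ := hME N L hN hL
  obtain ⟨K, hK⟩ : ∃ K : ℝ, K = N * 2 ^ N := ⟨_, rfl⟩
  have hN0 : (0 : ℝ) < N := by
    have : 0 < N := by omega
    exact_mod_cast this
  have hK0 : 0 < K := by rw [hK]; positivity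
  have hKC : 0 < K * C₂ := mul_pos hK0 hC₂
  refine ⟨C₁ + 36 * (K * C₂), c₁ / 2, min (min δ₁ δ₂) (c₁ / (2 * (K * C₂))), by positivity,
    by positivity, lt_min (lt_min hδ₁ hδ₂) (by positivity),
    (min_le_left _ _).trans ((min_le_left _ _).trans hδ₁'), ?_⟩
  intro δ Ω R u T hδ hδ' hEx hu huΩ hub
  have hd1 : δ ≤ δ₁ := hδ'.trans ((min_le_left _ _).trans (min_le_left _ _))
  have hd2 : δ ≤ δ₂ := hδ'.trans ((min_le_left _ _).trans (min_le_right _ _))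
  have hd3 : δ ≤ c₁ / (2 * (K * C₂)) := hδ'.trans (min_le_right _ _)
  have hd20 : δ ≤ 1 / 20 := hd1.trans hδ₁'
  have hO2 := hO2 N L δ u hN hδ hd20 hu
  have hME := hME δ R u T hδ hd2 hEx.meas (fun θ => ⟨hEx.lo θ, hEx.hi θ⟩) hu.continuous
  obtain ⟨hrs, hdr, hder, -⟩ := (hCO N hN).2 u hu
  obtain ⟨hph, hphc, -⟩ := hPH N L hN
  have hpc : Continuous (ph N L 1) := (hphc 1).1.continuous
  have hdpc : Continuous (dph N L 1) := (hphc 1).2.continuous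
  have hin : Continuous (fun q : ℝ × Sp N => inner ℝ T (q.2 : E N)) := by fun_prop
  obtain ⟨a, ha⟩ : ∃ a : ℝ, a = 1 - δ := ⟨_, rfl⟩
  obtain ⟨b, hb⟩ : ∃ b : ℝ, b = 1 + 5 * δ := ⟨_, rfl⟩
  rw [← hb, ← ha] at hO2 hME hEx ⊢
  rw [← hb] at hub
  have hab : a ≤ b := by rw [ha, hb]; linarith
  have haR : ∀ θ, a ≤ R θ ∧ R θ ≤ b := fun θ => ⟨(hEx.lo θ).le, hEx.hi θ⟩
  have hb0 : 0 < b := by rw [hb]; linarith
  -- the functions on the sphere
  have hR : BM R := ⟨hEx.meas, b, fun θ => by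
    have h1 := haR θ
    rw [abs_of_nonneg (by rw [ha] at h1; linarith [h1.1])]
    exact h1.2⟩
  obtain ⟨f0, hf0⟩ : ∃ f : Sp N → ℝ, f = fun θ : Sp N => inner ℝ T (θ : E N) ^ 2 * ff N L (R θ) :=
    ⟨_, rfl⟩
  obtain ⟨f1, hf1⟩ : ∃ f : Sp N → ℝ, f = fun θ : Sp N => ∫ r in a..R θ,
    (dr u r θ - inner ℝ T (θ : E N) * dph N L 1 r) ^ 2 := ⟨_, rfl⟩
  obtain ⟨f2, hf2⟩ : ∃ f : Sp N → ℝ, f = fun θ : Sp N => ∫ r in R θ..b, rs u r θ ^ 2 := ⟨_, rfl⟩
  obtain ⟨f3, hf3⟩ : ∃ f : Sp N → ℝ, f = fun θ : Sp N =>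
    (rs u a θ - inner ℝ T (θ : E N) * ph N L 1 a) ^ 2 := ⟨_, rfl⟩
  obtain ⟨f4, hf4⟩ : ∃ f : Sp N → ℝ, f = fun θ : Sp N => (R θ - 1) ^ 2 := ⟨_, rfl⟩
  obtain ⟨f5, hf5⟩ : ∃ f : Sp N → ℝ, f = fun θ : Sp N => ∫ r in a..b, r ^ (N - 1) *
        (dr u r θ ^ 2 + (((N : ℝ) - 1) / r ^ 2 - L) * rs u r θ ^ 2) := ⟨_, rfl⟩
  obtain ⟨f6, hf6⟩ : ∃ f : Sp N → ℝ, f = fun θ : Sp N => ∫ r in (1 + δ / 2)..b, r ^ (N - 1) *
        (dr u r θ ^ 2 + (((N : ℝ) - 1) / r ^ 2 + 1) * rs u r θ ^ 2) := ⟨_, rfl⟩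
  obtain ⟨f7, hf7⟩ : ∃ f : Sp N → ℝ, f = fun θ : Sp N => a ^ (N - 1) * dph N L 1 a *
        (inner ℝ T (θ : E N) ^ 2 * ph N L 1 a + 2 * inner ℝ T (θ : E N) *
          (rs u a θ - inner ℝ T (θ : E N) * ph N L 1 a)) := ⟨_, rfl⟩
  obtain ⟨f8, hf8⟩ : ∃ f : Sp N → ℝ, f = fun θ : Sp N => ∫ r in a..R θ,
    (rs u r θ - inner ℝ T (θ : E N) * ph N L 1 r) ^ 2 := ⟨_, rfl⟩
  rw [← hf5, ← hf6] at hO2
  rw [← hf4, ← hf8, ← hf2] at hME
  rw [← hf0, ← hf1, ← hf2, ← hf3, ← hf4, ← hf7]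
  have hcrs : Continuous (fun θ : Sp N => rs u a θ) :=
    hrs.comp (continuous_const.prodMk continuous_id)
  have hcin : Continuous (fun θ : Sp N => inner ℝ T (θ : E N)) := by fun_prop
  have hb0' : BM f0 := by
    rw [hf0]
    refine ((BM_inner T).pow 2).mul (hR.comp ?_)
    show Continuous fun x => -(x ^ (N - 1) * dph N L 1 x * ph N L 1 x)
    exact (((continuous_id.pow _).mul hdpc).mul hpc).neg
  have hb1' : BM f1 := by
    rw [hf1]
    exact BM_int (F := fun q : ℝ × Sp N => (dr u q.1 q.2 -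
      inner ℝ T (q.2 : E N) * dph N L 1 q.1) ^ 2)
      ((hdr.sub (hin.mul (hdpc.comp continuous_fst))).pow 2) hEx.meas a b haR
  have hb2' : BM f2 := by
    rw [hf2]
    exact BM_int' (F := fun q : ℝ × Sp N => rs u q.1 q.2 ^ 2) (hrs.pow 2) hEx.meas a b haR
  have hb3' : BM f3 := by
    rw [hf3]
    exact BM_cont ((hcrs.sub (hcin.mul continuous_const)).pow 2)
  have hb4' : BM f4 := by
    rw [hf4]
    exact (hR.sub (BM_const 1)).pow 2
  have hb5' : BM f5 := by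
    rw [hf5]
    exact BM_energy hrs hdr ((N : ℝ) - 1) (-L) a b (by rw [ha]; linarith) hab
  have hb6' : BM f6 := by
    rw [hf6]
    exact BM_energy hrs hdr ((N : ℝ) - 1) 1 (1 + δ / 2) b (by linarith) (by rw [hb]; linarith)
  have hb7' : BM f7 := by
    rw [hf7]
    exact BM_cont (by fun_prop)
  have hb8' : BM f8 := by
    rw [hf8]
    exact BM_int (F := fun q : ℝ × Sp N => (rs u q.1 q.2 -
      inner ℝ T (q.2 : E N) * ph N L 1 q.1) ^ 2)
      ((hrs.sub (hin.mul (hpc.comp continuous_fst))).pow 2) hEx.meas a b haR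
  -- the inequality on each ray
  have hray : ∀ θ, f0 θ + (1 - C₁ * δ) * f1 θ + c₁ / δ ^ 2 * f2 θ - C₁ * δ * f3 θ -
      C₁ * δ * ‖T‖ ^ 2 * f4 θ ≤ f5 θ - δ ^ 2 * f6 θ + f7 θ := by
    intro θ
    have hC1 : C1 (fun r => rs u r θ) (fun r => dr u r θ) :=
      ⟨fun r => hder r θ, hdr.comp (continuous_id.prodMk continuous_const)⟩
    have hbz : rs u b θ = 0 := by
      apply hub
      rw [norm_smul_sp]
      exact le_abs_self b
    have hRz : rs u (R θ) θ = 0 := by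
      rcases lt_or_eq_of_le (haR θ).2 with h | h
      · exact huΩ _ (hEx.out θ h)
      · rw [h]; exact hbz
    have h1 := hRA δ (R θ) (inner ℝ T (θ : E N)) (fun r => rs u r θ) (fun r => dr u r θ) hδ hd1
      (by rw [← ha]; exact hEx.lo θ) (by rw [← hb]; exact hEx.hi θ) hC1 hRz
      (by rw [← hb]; exact hbz)
    rw [← ha, ← hb] at h1
    have h2 : C₁ * δ * inner ℝ T (θ : E N) ^ 2 * (R θ - 1) ^ 2 ≤
        C₁ * δ * ‖T‖ ^ 2 * (R θ - 1) ^ 2 := by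
      have := inner_sq_le T θ
      gcongr
    rw [hf0, hf1, hf2, hf3, hf4, hf5, hf6, hf7]
    linarith
  have hav : av f0 + (1 - C₁ * δ) * av f1 + c₁ / δ ^ 2 * av f2 - C₁ * δ * av f3 -
      C₁ * δ * ‖T‖ ^ 2 * av f4 ≤ av f5 - δ ^ 2 * av f6 + av f7 := by
    have h1 := av_mono ((((hb0'.add (hb1'.const_mul (1 - C₁ * δ))).add
      (hb2'.const_mul (c₁ / δ ^ 2))).sub (hb3'.const_mul (C₁ * δ))).sub
      (hb4'.const_mul (C₁ * δ * ‖T‖ ^ 2))) ((hb5'.sub (hb6'.const_mul (δ ^ 2))).add hb7') hray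
    rw [av_sub (((hb0'.add (hb1'.const_mul (1 - C₁ * δ))).add
      (hb2'.const_mul (c₁ / δ ^ 2))).sub (hb3'.const_mul (C₁ * δ)))
      (hb4'.const_mul (C₁ * δ * ‖T‖ ^ 2)), av_sub ((hb0'.add (hb1'.const_mul (1 - C₁ * δ))).add
      (hb2'.const_mul (c₁ / δ ^ 2))) (hb3'.const_mul (C₁ * δ)),
      av_add (hb0'.add (hb1'.const_mul (1 - C₁ * δ))) (hb2'.const_mul (c₁ / δ ^ 2)),
      av_add hb0' (hb1'.const_mul (1 - C₁ * δ)), av_add (hb5'.sub (hb6'.const_mul (δ ^ 2))) hb7',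
      av_sub hb5' (hb6'.const_mul (δ ^ 2)), av_const_mul, av_const_mul, av_const_mul,
      av_const_mul, av_const_mul] at h1
    exact h1
  -- the error term
  have h8 : av f8 ≤ 12 * δ * av f3 + 36 * δ ^ 2 * av f1 := by
    have h1 : ∀ θ, f8 θ ≤ 12 * δ * f3 θ + 36 * δ ^ 2 * f1 θ := by
      intro θ
      have hC1 : C1 (fun r => rs u r θ - inner ℝ T (θ : E N) * ph N L 1 r)
          (fun r => dr u r θ - inner ℝ T (θ : E N) * dph N L 1 r) :=
        ⟨fun r => (hder r θ).sub ((hph 1 r).const_mul _),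
          (hdr.comp (continuous_id.prodMk continuous_const)).sub (continuous_const.mul hdpc)⟩
      have h2 := (hP1 a (R θ) _ _ (haR θ).1 hC1).2
      have h3 : R θ - a ≤ 6 * δ := by
        have := (haR θ).2
        rw [hb] at this
        rw [ha]
        linarith
      have h4 : 0 ≤ R θ - a := by linarith [(haR θ).1]
      have h5 : 0 ≤ f3 θ := by rw [hf3]; positivity
      have h6 : 0 ≤ f1 θ := by
        rw [hf1]
        exact intervalIntegral.integral_nonneg (haR θ).1 fun r _ => sq_nonneg _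
      have h7 : f8 θ ≤ 2 * (R θ - a) * f3 θ + (R θ - a) ^ 2 * f1 θ := by
        rw [hf8, hf3, hf1]
        exact h2
      have h9 : 2 * (R θ - a) * f3 θ ≤ 12 * δ * f3 θ := by
        apply mul_le_mul_of_nonneg_right _ h5
        linarith
      have h10 : (R θ - a) ^ 2 * f1 θ ≤ 36 * δ ^ 2 * f1 θ := by
        apply mul_le_mul_of_nonneg_right _ h6
        nlinarith
      linarith
    have h2 := av_mono hb8' ((hb3'.const_mul (12 * δ)).add (hb1'.const_mul (36 * δ ^ 2))) h1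
    rwa [av_add (hb3'.const_mul (12 * δ)) (hb1'.const_mul (36 * δ ^ 2)), av_const_mul,
      av_const_mul] at h2
  have hp1 : 0 ≤ av f1 := av_nonneg fun θ => by
    rw [hf1]
    exact intervalIntegral.integral_nonneg (haR θ).1 fun r _ => sq_nonneg _
  have hp2 : 0 ≤ av f2 := av_nonneg fun θ => by
    rw [hf2]
    exact intervalIntegral.integral_nonneg (haR θ).2 fun r _ => sq_nonneg _
  have hp3 : 0 ≤ av f3 := av_nonneg fun θ => by rw [hf3]; positivity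
  have hp4 : 0 ≤ av f4 := av_nonneg fun θ => by rw [hf4]; positivity
  rw [← hK] at hO2
  -- the combination
  have hME' : K * (∫ r in a..b, av (rs u r) ^ 2) ≤ K * C₂ * (δ * ‖T‖ ^ 2 * av f4 +
      (12 * δ * av f3 + 36 * δ ^ 2 * av f1) + av f2) := by
    have h1 := mul_le_mul_of_nonneg_left hME hK0.le
    have h2 : K * C₂ * av f8 ≤ K * C₂ * (12 * δ * av f3 + 36 * δ ^ 2 * av f1) :=
      mul_le_mul_of_nonneg_left h8 hKC.le
    linarith [h1, h2]
  have ha2 : K * C₂ * av f2 ≤ c₁ / 2 / δ ^ 2 * av f2 := by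
    apply mul_le_mul_of_nonneg_right _ hp2
    rw [le_div_iff₀ (by positivity)]
    rw [le_div_iff₀ (by positivity)] at hd3
    have h1 : δ ^ 2 ≤ δ := by nlinarith
    have h2 : K * C₂ * δ ^ 2 ≤ K * C₂ * δ := mul_le_mul_of_nonneg_left h1 hKC.le
    linarith
  have hc2 : c₁ / δ ^ 2 * av f2 = c₁ / 2 / δ ^ 2 * av f2 + c₁ / 2 / δ ^ 2 * av f2 := by ring
  have hm1 : K * C₂ * δ ^ 2 * av f1 ≤ K * C₂ * δ * av f1 := by
    apply mul_le_mul_of_nonneg_right _ hp1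
    apply mul_le_mul_of_nonneg_left _ hKC.le
    nlinarith
  have hm3 : 0 ≤ K * C₂ * δ * av f3 := by positivity
  have hm4 : 0 ≤ K * C₂ * δ * ‖T‖ ^ 2 * av f4 := by positivity
  nlinarith [hav, hO2, hME', ha2, hc2, hm1, hm3, hm4]

end Pool.Agent.H74.LQ
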